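import Mathlib
import Pool.Agent.H77.Code.Incl

set_option autoImplicit false

/-!
Critical permutations (MP_a46c6f_co): words given by an edge set which is the union of two alternating
edge sets split; restriction of words to one side.
-/

namespace Pool.Agent.H68.Full

open Pool.Agent.H64.Pent Pool.Agent.H59.Pent Pool.Agent.H77.Code

variable {n : ℕ} {p : Equiv.Perm (ZMod n)}

lemma mul_le {u v : ZMod 2} (h : v = 1 → u = 1) : (1 + u) * (1 + v) = 1 + u := by
  revert h; revert u v; decide

lemma oneplus {u : ZMod 2} (h : 1 + u = 1) : u = 0 := by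
  revert h; revert u; decide

/-- **a `z`-free word whose edge set is the union of two alternating ones, the first of them not empty,
splits** (`p` is critical: every nonempty alternating edge set leaves a matching bridge). -/
theorem splits_of_two [NeZero n] (hC : Crit p) (a b a₁ b₁ : ZMod n → ZMod 2) (hab : Ev p a b)
    (hz : ∀ i, (word p a b i).1 = 0 → (word p a b i).2 = 0)
    (h1 : Alt p a₁ b₁) (hne : ∃ i, a₁ i = 1) (ha : ∀ i, a₁ i = 1 → a i = 1)
    (hb : ∀ i, b₁ i = 1 → b i = 1) (h2 : Alt p (fun i => a i + a₁ i) (fun i => b i + b₁ i)) :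
    ∃ g s t, Ev p s t ∧ word p a b g = 0 ∧ word p s t g = (0, 1) ∧
      ∀ i, i ≠ g → word p s t i = 0 ∨ word p s t i = word p a b i := by
  classical
  obtain ⟨e, s, t, ⟨e1, e2, e3, e4⟩, ⟨f1, f2, f3, f4⟩, hv⟩ := hC a₁ b₁ h1 hne
  choose! v hv using hv
  have h2e := h2 e
  simp only [e1, e2, e3, e4, add_zero] at h2e
  rcases h2e with ⟨g1, g2, g3, g4⟩ | ⟨g1, g2⟩
  · refine ⟨e, fun i => (1 + a i) * s i, fun j => (1 + b j) * t j, ?_, ?_, ?_, ?_⟩
    · intro i
      by_cases hi : i = e
      · subst hi
        simp only [g1, g2, g3, g4, f1, f2, f3, f4]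
        decide
      · obtain ⟨v1, v2, v3, v4⟩ := hv i hi
        simp only [v1, v2, v3, v4, ← mul_assoc, mul_le (ha _), mul_le (hb _)]
        have := hab i
        rw [← add_mul, ← add_mul, z2_flip, z2_flip, this]
    · show (a (e - 1) + a e, a e + b (p e)) = 0
      rw [g1, g2, g4]; decide
    · show ((1 + a (e - 1)) * s (e - 1) + (1 + a e) * s e, (1 + a e) * s e + (1 + b (p e)) * t (p e)) = _
      rw [g1, g2, g4, f1, f2, f4]; decide
    · intro i hi
      obtain ⟨v1, v2, v3, v4⟩ := hv i hi
      show ((1 + a (i - 1)) * s (i - 1) + (1 + a i) * s i, (1 + a i) * s i + (1 + b (p i)) * t (p i)) = 0 ∨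
        ((1 + a (i - 1)) * s (i - 1) + (1 + a i) * s i, (1 + a i) * s i + (1 + b (p i)) * t (p i)) =
          (a (i - 1) + a i, a i + b (p i))
      rw [v1, v2, v4, ← mul_assoc, ← mul_assoc, ← mul_assoc, mul_le (ha _), mul_le (ha _), mul_le (hb _),
        ← add_mul, ← add_mul, z2_flip, z2_flip]
      rcases z2 (v i) with h | h
      · left; rw [h, mul_zero, mul_zero]; rfl
      · right; rw [h, mul_one, mul_one]
  · exfalso
    set X : ZMod n → ZMod 2 := fun i => if i = e then 1 else v i with hX
    set Y : ZMod n → ZMod 2 := fun j => if j = p e then 0 else v (p.symm j) with hY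
    have hXe : X e = 1 := by simp [hX]
    have hYe : Y (p e) = 0 := by simp [hY]
    have hXi : ∀ i, i ≠ e → X i = v i := fun i hi => by simp [hX, hi]
    have hYi : ∀ i, i ≠ e → Y (p i) = v i := fun i hi => by
      have : p i ≠ p e := fun h => hi (p.injective h)
      simp [hY, this]
    have ha0 : ∀ i, 1 + a i = 1 → a₁ i = 0 := by
      intro i hi
      rcases z2 (a₁ i) with h | h
      · exact h
      · have := ha i h
        rw [oneplus hi] at this
        exact absurd this (by decide)
    have hb0 : ∀ i, 1 + b i = 1 → b₁ i = 0 := by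
      intro i hi
      rcases z2 (b₁ i) with h | h
      · exact h
      · have := hb i h
        rw [oneplus hi] at this
        exact absurd this (by decide)
    have sX : ∀ i, 1 + a i = 1 → s i = X i := by
      intro i hi
      by_cases hie : i = e
      · rw [hie, hXe, f2]
      · rw [hXi i hie, (hv i hie).2.1, ha0 i hi, add_zero, one_mul]
    have sX' : ∀ i, 1 + a i = 1 → s i = X (i + 1) := by
      intro i hi
      by_cases hie : i + 1 = e
      · rw [hie, hXe, ← f1, ← hie, add_sub_cancel_right]
      · rw [hXi _ hie]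
        have := (hv _ hie).1
        rw [add_sub_cancel_right, ha0 i hi, add_zero, one_mul] at this
        exact this
    have tY : ∀ j, 1 + b j = 1 → t j = Y j := by
      intro j hj
      obtain ⟨i, rfl⟩ := p.surjective j
      by_cases hie : i = e
      · rw [hie, hYe, f4]
      · rw [hYi i hie, (hv i hie).2.2.2, hb0 _ hj, add_zero, one_mul]
    have tY' : ∀ j, 1 + b j = 1 → t j = Y (j + 1) := by
      intro j hj
      obtain ⟨i, hi⟩ := p.surjective (j + 1)
      by_cases hie : i = e
      · rw [← hi, hie, hYe, ← f3, ← hie, hi, add_sub_cancel_right]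
      · rw [← hi, hYi i hie]
        have := (hv i hie).2.2.1
        rw [hi, add_sub_cancel_right, hb0 _ hj, add_zero, one_mul] at this
        exact this
    have hpar := parity_sum p (fun i => 1 + a i) (fun j => 1 + b j) X Y (ev_flip hab)
    rw [Finset.sum_eq_zero (f := fun i => (1 + a i) * (X i + X (i + 1))),
      Finset.sum_eq_zero (f := fun j => (1 + b j) * (Y j + Y (j + 1))), Finset.sum_eq_single e, hXe, hYe,
      z2_flip, g1] at hpar
    · exact absurd hpar (by decide)
    · intro i _ hi
      rw [hXi i hi, hYi i hi, CharTwo.add_self_eq_zero, mul_zero]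
    · intro h
      exact absurd (Finset.mem_univ e) h
    · intro j _
      exact mul_side fun h => (tY j h).symm.trans (tY' j h)
    · intro i _
      exact mul_side fun h => (sX i h).symm.trans (sX' i h)

/-- **a `z`-free word given by a nonempty alternating edge set splits** -/
theorem splits_of_alt [NeZero n] (hC : Crit p) (a b : ZMod n → ZMod 2) (hab : Ev p a b)
    (h1 : Alt p a b) (hne : ∃ i, a i = 1) :
    ∃ g s t, Ev p s t ∧ word p a b g = 0 ∧ word p s t g = (0, 1) ∧
      ∀ i, i ≠ g → word p s t i = 0 ∨ word p s t i = word p a b i := by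
  refine splits_of_two hC a b a b hab ?_ h1 hne (fun _ h => h) (fun _ h => h) ?_
  · intro i hi
    have hi' : a (i - 1) + a i = 0 := hi
    rcases h1 i with ⟨h3, h4, h5, h6⟩ | ⟨h3, h4⟩
    · show a i + b (p i) = 0
      rw [h4, h6, add_zero]
    · rw [h3] at hi'
      exact absurd hi' (by decide)
  · intro i
    left
    simp only [CharTwo.add_self_eq_zero, and_self]

/-- restriction of an even edge set to one side of a `z`-free word -/
theorem restrict (a b s t : ZMod n → ZMod 2) (hab : Ev p a b) (hst : Ev p s t)
    (hz : ∀ i, (word p a b i).1 = 0 → (word p a b i).2 = 0)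
    (hle : ∀ i, word p a b i ≠ 0 → word p s t i = 0 ∨ word p s t i = word p a b i) :
    Ev p (fun i => a i * s i) (fun j => b j * t j) ∧
    (∀ i, word p a b i = 0 → a i = 1 →
      word p (fun i => a i * s i) (fun j => b j * t j) i = word p s t i) ∧
    (∀ i, word p a b i = 0 → a i = 0 → word p (fun i => a i * s i) (fun j => b j * t j) i = 0) ∧
    (∀ i, word p a b i ≠ 0 → word p (fun i => a i * s i) (fun j => b j * t j) i = 0 ∨
      word p (fun i => a i * s i) (fun j => b j * t j) i = word p a b i) := by
  have key : ∀ A B C D S T U W : ZMod 2, A + B = C + D → S + T = U + W →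
      (A + B = 0 → B + D = 0) →
      ((A + B, B + D) ≠ (0 : ZMod 2 × ZMod 2) → (S + T, T + W) = (0 : ZMod 2 × ZMod 2) ∨
        (S + T, T + W) = (A + B, B + D)) →
      A * S + B * T = C * U + D * W ∧
      ((A + B, B + D) = (0 : ZMod 2 × ZMod 2) → B = 1 → (A * S + B * T, B * T + D * W) = (S + T, T + W)) ∧
      ((A + B, B + D) = (0 : ZMod 2 × ZMod 2) → B = 0 → (A * S + B * T, B * T + D * W) = 0) ∧
      ((A + B, B + D) ≠ (0 : ZMod 2 × ZMod 2) → (A * S + B * T, B * T + D * W) = 0 ∨
        (A * S + B * T, B * T + D * W) = (A + B, B + D)) := by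
    intro A B C D S T U W
    rcases z2 A with rfl | rfl <;> rcases z2 B with rfl | rfl <;> rcases z2 C with rfl | rfl <;>
      rcases z2 D with rfl | rfl <;> rcases z2 S with rfl | rfl <;> rcases z2 T with rfl | rfl <;>
      rcases z2 U with rfl | rfl <;> rcases z2 W with rfl | rfl <;> decide
  have h := fun i => key (a (i - 1)) (a i) (b (p i - 1)) (b (p i)) (s (i - 1)) (s i) (t (p i - 1))
    (t (p i)) (hab i) (hst i) (hz i) (hle i)
  exact ⟨fun i => (h i).1, fun i => (h i).2.1, fun i => (h i).2.2.1, fun i => (h i).2.2.2⟩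

/-- an even edge set with zero word which is empty at `e` is empty -/
theorem eq_zero_of_word [NeZero n] (a b : ZMod n → ZMod 2) (h : ∀ i, word p a b i = 0) (e : ZMod n)
    (he : a e = 0) : (∀ i, a i = 0) ∧ ∀ j, b j = 0 := by
  have h1 : ∀ i, a (i - 1) = a i := fun i => z2_add_eq _ _ (congrArg Prod.fst (h i))
  have h2 : ∀ k : ℕ, a (e + k) = 0 := by
    intro k
    induction k with
    | zero => simpa using he
    | succ k ih =>
      have := h1 (e + (k + 1 : ℕ))
      rw [← this, ← ih]
      congr 1
      push_cast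
      ring
  have h3 : ∀ i, a i = 0 := by
    intro i
    have := h2 (i - e).val
    rw [ZMod.natCast_zmod_val, add_sub_cancel] at this
    exact this
  refine ⟨h3, fun j => ?_⟩
  obtain ⟨i, rfl⟩ := p.surjective j
  have := congrArg Prod.snd (h i)
  have h5 : a i + b (p i) = 0 := this
  rw [← z2_add_eq _ _ h5]
  exact h3 i

/-- two even edge sets with the same word which agree at `e` are equal -/
theorem rep_unique [NeZero n] (a b a' b' : ZMod n → ZMod 2)
    (h : ∀ i, word p a b i = word p a' b' i) (e : ZMod n) (he : a e = a' e) : a = a' ∧ b = b' := by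
  have key := eq_zero_of_word (p := p) (fun i => a i + a' i) (fun j => b j + b' j) (by
    intro i
    have h1 := congrArg Prod.fst (h i)
    have h2 := congrArg Prod.snd (h i)
    have h1' : a (i - 1) + a i = a' (i - 1) + a' i := h1
    have h2' : a i + b (p i) = a' i + b' (p i) := h2
    show ((a (i - 1) + a' (i - 1)) + (a i + a' i), (a i + a' i) + (b (p i) + b' (p i))) = 0
    apply Prod.ext
    · show (a (i - 1) + a' (i - 1)) + (a i + a' i) = 0
      have h3 : (a (i - 1) + a' (i - 1)) + (a i + a' i) = (a (i - 1) + a i) + (a' (i - 1) + a' i) := by ring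
      rw [h3, h1', CharTwo.add_self_eq_zero]
    · show (a i + a' i) + (b (p i) + b' (p i)) = 0
      have h3 : (a i + a' i) + (b (p i) + b' (p i)) = (a i + b (p i)) + (a' i + b' (p i)) := by ring
      rw [h3, h2', CharTwo.add_self_eq_zero]) e (by
    show a e + a' e = 0
    rw [he, CharTwo.add_self_eq_zero])
  exact ⟨funext fun i => z2_add_eq _ _ (key.1 i), funext fun j => z2_add_eq _ _ (key.2 j)⟩

end Pool.Agent.H68.Full
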